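import Pool.Agent.L7h22.RF.Reg

/-! Project RF: `S_LAM`, the operators `∫ g(s) λ(s) ds`. -/

set_option autoImplicit false
set_option linter.unusedSectionVars false

open MeasureTheory Filter Topology
open scoped ComplexConjugate InnerProductSpace
open Pool.Agent.W660.FL (HH U)

namespace Pool.Agent.L7h22.RF

open Pool.Agent.L7h17.RF

noncomputable section

section gen

variable {G : Type} [TopologicalSpace G] [MeasurableSpace G] [BorelSpace G]
  (μ : Measure G) [IsFiniteMeasureOnCompacts μ] {K : Type} [NormedAddCommGroup K]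
  [InnerProductSpace ℂ K] [CompleteSpace K]

/-- strong integral of a bounded strongly continuous family of operators -/
structure Fam (V : G → Op K) (g : G → ℝ) : Prop where
  nrm : ∀ s ξ, ‖V s ξ‖ ≤ ‖ξ‖
  cont : ∀ ξ, Continuous fun s => V s ξ
  gc : Continuous g
  gs : HasCompactSupport g
  g0 : ∀ s, 0 ≤ g s
  g1 : ∫ s, g s ∂μ = 1

variable {μ} {V : G → Op K} {g : G → ℝ}

lemma Fam.int (F : Fam μ V g) (ξ : K) : Integrable (fun s => (g s : ℂ) • V s ξ) μ := by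
  apply Continuous.integrable_of_hasCompactSupport
  · exact (Complex.continuous_ofReal.comp F.gc).smul (F.cont ξ)
  · apply F.gs.mono
    intro s hs
    rw [Function.mem_support] at hs ⊢
    intro h
    apply hs
    simp [h]

lemma Fam.gint (F : Fam μ V g) : Integrable g μ :=
  F.gc.integrable_of_hasCompactSupport F.gs

lemma Fam.norm_le (F : Fam μ V g) (ξ : K) : ‖∫ s, (g s : ℂ) • V s ξ ∂μ‖ ≤ ‖ξ‖ := by
  refine (norm_integral_le_integral_norm _).trans ?_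
  have h1 : ∫ s, ‖(g s : ℂ) • V s ξ‖ ∂μ ≤ ∫ s, g s * ‖ξ‖ ∂μ := by
    apply integral_mono (F.int ξ).norm (F.gint.mul_const _)
    intro s
    show ‖(g s : ℂ) • V s ξ‖ ≤ g s * ‖ξ‖
    rw [norm_smul, Complex.norm_real, Real.norm_eq_abs, abs_of_nonneg (F.g0 s)]
    exact mul_le_mul_of_nonneg_left (F.nrm s ξ) (F.g0 s)
  rw [integral_mul_const, F.g1, one_mul] at h1
  exact h1

/-- the operator -/
def Fam.L (F : Fam μ V g) : Op K :=
  LinearMap.mkContinuous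
    { toFun := fun ξ => ∫ s, (g s : ℂ) • V s ξ ∂μ
      map_add' := by
        intro x y
        rw [← integral_add (F.int x) (F.int y)]
        congr 1
        funext s
        rw [map_add, smul_add]
      map_smul' := by
        intro c x
        rw [RingHom.id_apply, ← integral_smul]
        congr 1
        funext s
        rw [map_smul, smul_comm] } 1 (by
      intro x
      rw [one_mul]
      exact F.norm_le x)

lemma Fam.L_apply (F : Fam μ V g) (ξ : K) : F.L ξ = ∫ s, (g s : ℂ) • V s ξ ∂μ := rfl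

lemma Fam.comm (F : Fam μ V g) (S : Op K) (hS : ∀ s, S * V s = V s * S) : S * F.L = F.L * S := by
  ext ξ : 1
  show S (F.L ξ) = F.L (S ξ)
  rw [F.L_apply, F.L_apply, ← ContinuousLinearMap.integral_comp_comm S (F.int ξ)]
  congr 1
  funext s
  rw [map_smul]
  congr 1
  exact congrArg (fun T : Op K => T ξ) (hS s)

lemma Fam.inner_left (F : Fam μ V g) (ξ η : K) :
    ⟪η, F.L ξ⟫_ℂ = ∫ s, (g s : ℂ) * ⟪η, V s ξ⟫_ℂ ∂μ := by
  rw [F.L_apply, ← integral_inner (F.int ξ)]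
  congr 1
  funext s
  rw [inner_smul_right]

lemma Fam.near (F : Fam μ V g) (ξ : K) (δ : ℝ) (h : ∀ s, g s ≠ 0 → ‖V s ξ - ξ‖ ≤ δ) :
    ‖F.L ξ - ξ‖ ≤ δ := by
  have hi : Integrable (fun s => (g s : ℂ) • ξ) μ := F.gint.ofReal.smul_const ξ
  have h1 : F.L ξ - ξ = ∫ s, (g s : ℂ) • (V s ξ - ξ) ∂μ := by
    have h2 : ∫ s, (g s : ℂ) • ξ ∂μ = ξ := by
      rw [integral_smul_const, integral_complex_ofReal, F.g1, Complex.ofReal_one, one_smul]
    have h3 : ∫ s, (g s : ℂ) • (V s ξ - ξ) ∂μ =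
        ∫ s, ((g s : ℂ) • V s ξ - (g s : ℂ) • ξ) ∂μ := by
      congr 1
      funext s
      rw [smul_sub]
    rw [h3, integral_sub (F.int ξ) hi, h2, F.L_apply]
  rw [h1]
  refine (norm_integral_le_integral_norm _).trans ?_
  have h4 : ∫ s, ‖(g s : ℂ) • (V s ξ - ξ)‖ ∂μ ≤ ∫ s, g s * δ ∂μ := by
    apply integral_mono _ (F.gint.mul_const _)
    · intro s
      show ‖(g s : ℂ) • (V s ξ - ξ)‖ ≤ g s * δ
      rw [norm_smul, Complex.norm_real, Real.norm_eq_abs, abs_of_nonneg (F.g0 s)]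
      by_cases hs : g s = 0
      · rw [hs]; simp
      · exact mul_le_mul_of_nonneg_left (h s hs) (F.g0 s)
    · have : (fun s => ‖(g s : ℂ) • (V s ξ - ξ)‖) =
          fun s => ‖(g s : ℂ) • V s ξ - (g s : ℂ) • ξ‖ := by
        funext s; rw [smul_sub]
      rw [this]
      exact ((F.int ξ).sub hi).norm
  rw [integral_mul_const, F.g1, one_mul] at h4
  exact h4

end gen

variable (G : Type) [Group G] [TopologicalSpace G] [IsTopologicalGroup G] [T2Space G]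
  [LocallyCompactSpace G] [MeasurableSpace G] [BorelSpace G]
  (μ : Measure G) [μ.IsHaarMeasure] [μ.Regular]

theorem s_LAM : S_LAM G μ := by
  intro g gc gs g0 g1
  obtain ⟨hU, hn, hc⟩ := s_REG G μ
  have F : Fam μ (lam G μ) g := ⟨fun s ξ => (hn s ξ).le, hc, gc, gs, g0, g1⟩
  have F' : Fam μ (fun s => lam G μ s⁻¹) g :=
    ⟨fun s ξ => (hn s⁻¹ ξ).le, fun ξ => (hc ξ).comp continuous_inv, gc, gs, g0, g1⟩
  -- the maximum of g
  obtain ⟨C, hC⟩ : ∃ C, ∀ s, g s ≤ C := by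
    obtain ⟨C, hC⟩ := gc.bounded_above_of_compact_support gs
    exact ⟨C, fun s => (le_abs_self _).trans (hC s)⟩
  refine ⟨F.L, F'.L, ?_, ?_, ?_, ?_, ?_, C, ?_⟩
  · intro S hS
    exact F.comm S hS
  · intro S hS
    exact F'.comm S fun s => hS s⁻¹
  · intro ξ η
    rw [F'.inner_left, ← inner_conj_symm, F.inner_left, ← integral_conj]
    congr 1
    funext s
    rw [map_mul, Complex.conj_ofReal, inner_conj_symm, hU.inv]
  · intro ξ
    exact F.norm_le ξ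
  · intro ξ δ h
    exact F'.near ξ δ h
  · intro ξ hi
    -- the kernel
    have h1 : ∀ t, ‖⟪F.L ξ, lam G μ t ξ⟫_ℂ‖ ≤ C * ∫ s, ‖⟪ξ, lam G μ s ξ⟫_ℂ‖ ∂μ := by
      intro t
      rw [← inner_conj_symm, RCLike.norm_conj, F.inner_left]
      have e1 : ∀ s, ⟪lam G μ t ξ, lam G μ s ξ⟫_ℂ = ⟪ξ, lam G μ (t⁻¹ * s) ξ⟫_ℂ := by
        intro s
        rw [hU.inv t, hU.mul t⁻¹ s]
        rfl
      refine (norm_integral_le_integral_norm _).trans ?_
      have hi2 : Integrable (fun s => ⟪ξ, lam G μ (t⁻¹ * s) ξ⟫_ℂ) μ := hi.comp_mul_left t⁻¹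
      have h2 : ∫ s, ‖(g s : ℂ) * ⟪lam G μ t ξ, lam G μ s ξ⟫_ℂ‖ ∂μ ≤
          ∫ s, C * ‖⟪ξ, lam G μ (t⁻¹ * s) ξ⟫_ℂ‖ ∂μ := by
        apply integral_mono_of_nonneg (Eventually.of_forall fun s => norm_nonneg _)
          (hi2.norm.const_mul C)
        apply Eventually.of_forall
        intro s
        show ‖(g s : ℂ) * ⟪lam G μ t ξ, lam G μ s ξ⟫_ℂ‖ ≤ C * ‖⟪ξ, lam G μ (t⁻¹ * s) ξ⟫_ℂ‖
        rw [norm_mul, Complex.norm_real, Real.norm_eq_abs, abs_of_nonneg (g0 s), e1]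
        exact mul_le_mul_of_nonneg_right (hC s) (norm_nonneg _)
      rw [integral_const_mul] at h2
      have h3 : ∫ s, ‖⟪ξ, lam G μ (t⁻¹ * s) ξ⟫_ℂ‖ ∂μ = ∫ s, ‖⟪ξ, lam G μ s ξ⟫_ℂ‖ ∂μ :=
        integral_mul_left_eq_self (fun s => ‖⟪ξ, lam G μ s ξ⟫_ℂ‖) t⁻¹
      rw [h3] at h2
      exact h2
    have h4 : ‖F.L ξ‖ ^ 2 = ‖⟪F.L ξ, F.L ξ⟫_ℂ‖ := by
      rw [inner_self_eq_norm_sq_to_K, norm_pow, RCLike.norm_ofReal, abs_of_nonneg (norm_nonneg _)]
    rw [h4]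
    nth_rewrite 2 [F.L_apply]
    rw [← F.L_apply, F.inner_left]
    refine (norm_integral_le_integral_norm _).trans ?_
    have h5 : ∫ s, ‖(g s : ℂ) * ⟪F.L ξ, lam G μ s ξ⟫_ℂ‖ ∂μ ≤
        ∫ s, g s * (C * ∫ s, ‖⟪ξ, lam G μ s ξ⟫_ℂ‖ ∂μ) ∂μ := by
      apply integral_mono_of_nonneg (Eventually.of_forall fun s => norm_nonneg _)
        (F.gint.mul_const _)
      apply Eventually.of_forall
      intro s
      show ‖(g s : ℂ) * ⟪F.L ξ, lam G μ s ξ⟫_ℂ‖ ≤ g s * (C * ∫ s, ‖⟪ξ, lam G μ s ξ⟫_ℂ‖ ∂μ)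
      rw [norm_mul, Complex.norm_real, Real.norm_eq_abs, abs_of_nonneg (g0 s)]
      exact mul_le_mul_of_nonneg_left (h1 s) (g0 s)
    rw [integral_mul_const, g1, one_mul] at h5
    exact h5

end

end Pool.Agent.L7h22.RF
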