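import Pool.Agent.L7h22.RF.Reg

/-! Project RF: `S_VEC`, normalized indicators of small neighbourhoods. -/

set_option autoImplicit false
set_option linter.unusedSectionVars false

open MeasureTheory Filter Topology
open scoped ComplexConjugate InnerProductSpace Pointwise ENNReal
open Pool.Agent.W660.FL (HH U)

namespace Pool.Agent.L7h22.RF

open Pool.Agent.L7h17.RF

noncomputable section

variable {G : Type} [Group G] [TopologicalSpace G] [IsTopologicalGroup G] [T2Space G]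
  [LocallyCompactSpace G] [MeasurableSpace G] [BorelSpace G]
  {μ : Measure G} [μ.IsHaarMeasure] [μ.Regular]

/-- a continuous function bounded by `1` which vanishes off a set `S` contained in a compact set and
in an open set of small measure -/
lemma small_int {φ : G → ℂ} (hφ : Continuous φ) (h1 : ∀ s, ‖φ s‖ ≤ 1) {S M K : Set G}
    (hS : ∀ s, φ s ≠ 0 → s ∈ S) (hSM : S ⊆ M) (hSK : S ⊆ K) (hK : IsCompact K) {ε : ℝ}
    (hε : 0 ≤ ε) (hM : μ M ≤ ENNReal.ofReal ε) :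
    Integrable φ μ ∧ ∫ s, ‖φ s‖ ∂μ ≤ ε := by
  have hcs : HasCompactSupport φ := HasCompactSupport.intro hK fun x hx => by
    by_contra h
    exact hx (hSK (hS x h))
  refine ⟨hφ.integrable_of_hasCompactSupport hcs, ?_⟩
  have h2 : ∫ s, ‖φ s‖ ∂μ = ∫ s in M, ‖φ s‖ ∂μ := by
    symm
    apply setIntegral_eq_integral_of_forall_compl_eq_zero
    intro s hs
    by_contra h
    apply hs
    apply hSM
    apply hS
    intro h0
    apply h
    rw [h0, norm_zero]
  rw [h2]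
  have h3 : ‖∫ s in M, ‖φ s‖ ∂μ‖ ≤ 1 * μ.real M := by
    apply norm_setIntegral_le_of_norm_le_const (lt_of_le_of_lt hM ENNReal.ofReal_lt_top)
    intro s _
    rw [norm_norm]
    exact h1 s
  have h4 : μ.real M ≤ ε := by
    have := ENNReal.toReal_mono ENNReal.ofReal_ne_top hM
    rw [ENNReal.toReal_ofReal hε] at this
    exact this
  calc ∫ s in M, ‖φ s‖ ∂μ ≤ ‖∫ s in M, ‖φ s‖ ∂μ‖ := le_abs_self _
    _ ≤ 1 * μ.real M := h3
    _ ≤ ε := by rw [one_mul]; exact h4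

/-- coefficients of a function supported in `V` -/
lemma coef_supp {V : Set G} (hV : MeasurableSet V) (hVf : μ V ≠ ⊤) (c : ℂ) (s : G)
    (h : ⟪indicatorConstLp 2 hV hVf c, lam G μ s (indicatorConstLp 2 hV hVf c)⟫_ℂ ≠ 0) :
    ∃ a ∈ V, ∃ b ∈ V, s = a / b := by
  by_contra hcon
  push Not at hcon
  apply h
  rw [L2.inner_def]
  apply integral_eq_zero_of_ae
  have h1 : (indicatorConstLp 2 hV hVf c : G → ℂ) =ᵐ[μ] V.indicator fun _ => c :=
    indicatorConstLp_coeFn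
  have h2 := Pool.Agent.W660.FG.RUB.U_coe (μ := μ) s⁻¹ (indicatorConstLp 2 hV hVf c)
  have h3 := (measurePreserving_mul_left μ s⁻¹).quasiMeasurePreserving.ae_eq_comp h1
  filter_upwards [h1, h2, h3] with y e1 e2 e3
  have e4 : (lam G μ s (indicatorConstLp 2 hV hVf c) : G → ℂ) y =
      (V.indicator (fun _ => c)) (s⁻¹ * y) := by
    show (U μ s⁻¹ (indicatorConstLp 2 hV hVf c) : G → ℂ) y = _
    rw [e2]
    exact e3
  rw [e4, e1]
  show ⟪V.indicator (fun _ => c) y, V.indicator (fun _ => c) (s⁻¹ * y)⟫_ℂ = 0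
  by_cases hy : y ∈ V
  · by_cases hy2 : s⁻¹ * y ∈ V
    · exfalso
      apply hcon y hy (s⁻¹ * y) hy2
      rw [div_eq_mul_inv, mul_inv_rev, inv_inv, mul_inv_cancel_left]
    · rw [Set.indicator_of_notMem hy2]
      simp
  · rw [Set.indicator_of_notMem hy]
    simp

variable (G μ)

theorem s_VEC : S_VEC G μ := by
  intro hG x O hO hx ε hε
  obtain ⟨hU, hn, hc⟩ := s_REG G μ
  -- a small open neighbourhood of 1
  have hne : (𝓝[≠] (1 : G)).NeBot := by
    by_contra hcon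
    apply hG
    rw [not_neBot] at hcon
    apply discreteTopology_of_isOpen_singleton_one
    rw [isOpen_singleton_iff_punctured_nhds]
    exact hcon
  have hna : μ {(1 : G)} = 0 := measure_singleton 1
  obtain ⟨M, hM1, hMo, hMμ⟩ := Set.exists_isOpen_lt_of_lt ({1} : Set G) (ENNReal.ofReal ε) (μ := μ)
    (by rw [hna]; exact ENNReal.ofReal_pos.2 hε)
  have h1M : (1 : G) ∈ M := hM1 rfl
  -- a compact neighbourhood
  obtain ⟨K0, hK0, hK0n⟩ := exists_compact_mem_nhds (1 : G)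
  -- the small neighbourhood
  set N : Set G := M ∩ (fun s => x * s * x⁻¹) ⁻¹' M ∩ (fun s => x * s) ⁻¹' O with hN
  have hNn : N ∈ 𝓝 (1 : G) := by
    apply Filter.inter_mem
    · apply Filter.inter_mem
      · exact hMo.mem_nhds h1M
      · apply (hMo.preimage (by fun_prop)).mem_nhds
        show x * 1 * x⁻¹ ∈ M
        rw [mul_one, mul_inv_cancel]
        exact h1M
    · apply (hO.preimage (by fun_prop)).mem_nhds
      show x * 1 ∈ O
      rw [mul_one]
      exact hx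
  obtain ⟨W, hW, hWN⟩ := exists_nhds_split_inv hNn
  set V : Set G := interior (W ∩ K0) with hV
  have hVW : V ⊆ W := interior_subset.trans Set.inter_subset_left
  have hVK : V ⊆ K0 := interior_subset.trans Set.inter_subset_right
  have h1V : (1 : G) ∈ V := mem_interior_iff_mem_nhds.2 (Filter.inter_mem hW hK0n)
  have hVo : IsOpen V := isOpen_interior
  have hVm : MeasurableSet V := hVo.measurableSet
  have hVf : μ V ≠ ⊤ := ((measure_mono hVK).trans_lt hK0.measure_lt_top).ne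
  have hVp : 0 < μ V := hVo.measure_pos μ ⟨1, h1V⟩
  have hVr : 0 < μ.real V := ENNReal.toReal_pos hVp.ne' hVf
  -- the vector
  set c : ℝ := 1 / Real.sqrt (μ.real V) with hcdef
  set ξ : HH μ := indicatorConstLp 2 hVm hVf (c : ℂ) with hξ
  have hξ1 : ‖ξ‖ = 1 := by
    rw [hξ, norm_indicatorConstLp (by norm_num) (by norm_num)]
    rw [Complex.norm_real, Real.norm_eq_abs, abs_of_nonneg (by positivity), hcdef]
    have : μ.real V ^ (1 / (2 : ℝ≥0∞).toReal) = Real.sqrt (μ.real V) := by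
      rw [Real.sqrt_eq_rpow]
      norm_num
    rw [this]
    field_simp
  -- the coefficients
  have hsup : ∀ s, ⟪ξ, lam G μ s ξ⟫_ℂ ≠ 0 → s ∈ N ∩ (fun p : G × G => p.1 / p.2) '' (K0 ×ˢ K0) := by
    intro s hs
    obtain ⟨a, ha, b, hb, e⟩ := coef_supp hVm hVf (c : ℂ) s hs
    refine ⟨?_, ⟨(a, b), ⟨hVK ha, hVK hb⟩, e.symm⟩⟩
    rw [e]
    exact hWN a (hVW ha) b (hVW hb)
  have hKc : IsCompact ((fun p : G × G => p.1 / p.2) '' (K0 ×ˢ K0)) :=
    (hK0.prod hK0).image continuous_div'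
  have hcx : ∀ s, ⟪lam G μ x ξ, lam G μ s (lam G μ x ξ)⟫_ℂ = ⟪ξ, lam G μ (x⁻¹ * s * x) ξ⟫_ℂ := by
    intro s
    rw [hU.inv x, hU.mul (x⁻¹ * s) x, hU.mul x⁻¹ s]
    rfl
  have hcx2 : ∀ s, ⟪lam G μ x ξ, lam G μ s ξ⟫_ℂ = ⟪ξ, lam G μ (x⁻¹ * s) ξ⟫_ℂ := by
    intro s
    rw [hU.inv x, hU.mul x⁻¹ s]
    rfl
  have hcont : Continuous fun s => ⟪ξ, lam G μ s ξ⟫_ℂ := continuous_const.inner (hc ξ)
  have hbd : ∀ s, ‖⟪ξ, lam G μ s ξ⟫_ℂ‖ ≤ 1 := by
    intro s
    refine (norm_inner_le_norm _ _).trans ?_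
    rw [hn, hξ1, one_mul]
  have hA := small_int (μ := μ) hcont hbd hsup
    (fun s hs => hs.1.1.1 : N ∩ (fun p : G × G => p.1 / p.2) '' (K0 ×ˢ K0) ⊆ M)
    Set.inter_subset_right hKc hε.le hMμ.le
  have hB := small_int (μ := μ) (φ := fun s => ⟪lam G μ x ξ, lam G μ s (lam G μ x ξ)⟫_ℂ)
    (continuous_const.inner (hc _)) (fun s => by rw [hcx]; exact hbd _)
    (S := (fun s => x * s * x⁻¹) '' (N ∩ (fun p : G × G => p.1 / p.2) '' (K0 ×ˢ K0)))
    (M := M) (K := (fun s => x * s * x⁻¹) '' ((fun p : G × G => p.1 / p.2) '' (K0 ×ˢ K0)))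
    (fun s hs => by
      rw [hcx] at hs
      exact ⟨x⁻¹ * s * x, hsup _ hs, by simp only; group⟩)
    (by
      rintro s ⟨t, ht, rfl⟩
      exact ht.1.1.2)
    (Set.image_mono Set.inter_subset_right) (hKc.image (by fun_prop)) hε.le hMμ.le
  refine ⟨ξ, hξ1, hA.1, hA.2, hB.1, hB.2, ?_⟩
  intro s hs
  rw [hcx2] at hs
  have h5 := (hsup _ hs).1.2
  have h6 : x * (x⁻¹ * s) ∈ O := h5
  rwa [mul_inv_cancel_left] at h6

end

end Pool.Agent.L7h22.RF
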