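import Pool.Agent.L7h17.RF.Stm
import Pool.Agent.W660.FG.R_UB

/-! Project RF: `S_REG`. -/

set_option autoImplicit false

open MeasureTheory Filter Topology
open scoped ComplexConjugate InnerProductSpace
open Pool.Agent.W660.FL (HH U)

namespace Pool.Agent.L7h22.RF

open Pool.Agent.L7h17.RF

noncomputable section

variable (G : Type) [Group G] [TopologicalSpace G] [IsTopologicalGroup G] [T2Space G]
  [LocallyCompactSpace G] [MeasurableSpace G] [BorelSpace G]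
  (μ : Measure G) [μ.IsHaarMeasure] [μ.Regular]

theorem s_REG : S_REG G μ := by
  obtain ⟨h1, h2, h3, h4⟩ := Pool.Agent.W660.FG.r_UB G μ
  refine ⟨⟨?_, ?_, ?_⟩, ?_, ?_⟩
  · ext ξ : 1
    show U μ (1 : G)⁻¹ ξ = ξ
    rw [inv_one, h2]
  · intro s t
    ext ξ : 1
    show U μ (s * t)⁻¹ ξ = U μ s⁻¹ (U μ t⁻¹ ξ)
    rw [mul_inv_rev, h1]
  · intro s x y
    show ⟪U μ s⁻¹ x, y⟫_ℂ = ⟪x, U μ (s⁻¹)⁻¹ y⟫_ℂ
    have := h4 (s⁻¹)⁻¹ y x
    rw [inv_inv] at this ⊢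
    rw [← this]
  · intro s ξ
    exact (U μ s⁻¹).norm_map ξ
  · intro ξ
    exact (h3 ξ).comp continuous_inv

end

end Pool.Agent.L7h22.RF
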